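import Mathlib
import Pool.Agent.Run7.h450.Q9
import Pool.Agent.Run7.h450.Q10
import Pool.Agent.Run7.h450.Q12

/-!
# Reverse inequalities for actions with the weak tracial Rokhlin property
-/

set_option autoImplicit false

namespace Pool.Agent.Results.MP_f90f6c_an.ReverseInequalities

open Run7.h450
open scoped ENNReal

universe u v w w'

/-- Let `A` be an infinite-dimensional simple unital C*-algebra and let `α` be an action of a
finite group `G` on `A` with the weak tracial Rokhlin property. Suppose that `QT(A)` is the convex
hull of finitely many traces, or that all quasitraces of `A` are traces and some `g ≠ 1` in `G`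
leaves them invariant, or `A` has stable rank one, or uniform property Gamma, or CPoU. Then
`rc(A) ≤ rc(A^α)` and `rc(A) / card(G) ≤ rc(C*(G, A, α))`. -/
theorem result {A : Type u} [CStarAlgebra A] [PartialOrder A] [StarOrderedRing A]
    (simple : SimpleCStar A) (infinite : ¬ FiniteDimensional ℂ A)
    {G : Type v} [Group G] [Fintype G] (α : G →* (A ≃⋆ₐ[ℂ] A)) (rokhlin : WeakTracialRokhlin α)
    (traces : FinitelyManyTraces A ∨
      (AllTraces A ∧ (SomeFixesTraces α ∨ StableRankOne A ∨ UniformGamma A ∨ CPoU A)))
    {D : Type w} [CStarAlgebra D] [PartialOrder D] [StarOrderedRing D] (j : D →⋆ₐ[ℂ] A)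
    (fixed : IsFixedPointAlgebra α j)
    {B : Type w'} [CStarAlgebra B] [PartialOrder B] [StarOrderedRing B]
    (crossed : CrossedProduct α B) :
    rc A ≤ rc D ∧ rc A / (Fintype.card G : ℝ≥0∞) ≤ rc B := by
  rcases traces with h | ⟨h, hGC⟩
  · exact ⟨fix_final fixed simple infinite h,
      ENNReal.div_le_of_le_mul' (cp_final simple infinite h crossed)⟩
  · have hUC : ∀ N : ℕ, UC (SSt (D := A) N) := by
      rcases hGC with h1 | h1 | h1 | h1
      · exact uc_mat (pu_of_rokhlin (simpleC_of simple) infinite rokhlin h1)
      · exact uc_sr (du_of_sr h1)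
      · exact uc_mat (pu_of_gamma h1)
      · exact uc_mat (pu_of_cpou h1)
    exact ⟨fix_finalg fixed simple infinite (qAll_of h) hUC,
      ENNReal.div_le_of_le_mul' (cp_finalg simple infinite (qAll_of h) hUC crossed)⟩

end Pool.Agent.Results.MP_f90f6c_an.ReverseInequalities
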